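import Pool.Agent.helper17.GFG.Spec

/-! Row gg:KPM (MP_561ff4_al): the pairs of type `-1` are conjugate to the standard pairs, without scalars. -/

set_option autoImplicit false

open Finset

namespace Pool.Agent.EXT

open Pool.Agent.EXC

set_option maxRecDepth 100000 in
theorem KPM_lt : ∀ v ∈ RL, pv v = v → ∃ k : Fin 24, v = lt7 k := by decide +kernel

set_option maxRecDepth 100000 in
theorem KPM_al : ∀ j k : Fin 24, ip C6 (lt7 j) (lt7 k) = -1 → ∃ l : Fin 24, ip C6 (lt7 j) (lt7 l) = 0 ∧ ip C6 (lt7 k) (lt7 l) = 1 := by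
  decide +kernel

theorem KPM (hPAR : PAR_stmt) (hTOR : TOR_stmt) (hLST : LST_stmt) : KPM_stmt := by
  intro K _ τ hτ a b hab u v hu hv huv
  obtain ⟨g, hg, κ, hκ, hκ0, hga, hgb⟩ := hPAR K τ hτ a b (-1) hab u v hu hv huv
  obtain ⟨j, hj⟩ := KPM_lt u ((hLST u).1 hu.1) hu.2
  obtain ⟨k, hk⟩ := KPM_lt v ((hLST v).1 hv.1) hv.2
  obtain ⟨l, hl0, hl1⟩ := KPM_al j k (by rw [← hj, ← hk]; exact huv)
  rw [← hj] at hl0
  rw [← hk] at hl1
  obtain ⟨h, hh, hE⟩ := hTOR K τ hτ (lt7 l) (lt7_LR l) κ⁻¹ (by rw [map_inv₀, hκ]) (inv_ne_zero hκ0)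
  refine ⟨h * g, mul_mem hh hg, ?_, ?_⟩
  · rw [LinearEquiv.mul_apply, hga, hE u hu.1, hl0, zpow_zero, one_smul]
  · rw [LinearEquiv.mul_apply, hgb, map_smul, hE v hv.1, hl1, zpow_one, smul_smul, mul_inv_cancel₀ hκ0, one_smul]

end Pool.Agent.EXT
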