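import Pool.Agent.helper17.GFG.Spec

/-! Row gg:KYB (MP_561ff4_al): the products `P_k` as commutators. -/

set_option autoImplicit false

open Finset

namespace Pool.Agent.EXT

open Pool.Agent.EXC

/-- the computation in a group -/
theorem KYB_grp {G : Type*} [Group G] (y c a d f : G) (h1 : y * (c⁻¹ * a) * y⁻¹ = a) (h2 : y * d * y⁻¹ = f * d)
    (h3 : a * f = f * a) : y * (c⁻¹ * a * d) * y⁻¹ * (c⁻¹ * a * d)⁻¹ = f * c := by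
  have e3 : y * (c⁻¹ * a * d) * y⁻¹ = (y * (c⁻¹ * a) * y⁻¹) * (y * d * y⁻¹) := by group
  rw [e3, h1, h2]
  have e4 : a * (f * d) * (c⁻¹ * a * d)⁻¹ = a * f * a⁻¹ * c := by group
  rw [e4, h3]
  group

theorem KYB_c : (LR (-sr 1) ∧ ip C6 (-sr 1) th = -1 ∧ LR (-sr 1 + th)) ∧ ∀ k : Fin 3, LR (cc3 k) ∧ ip C6 (cc3 k) th = -1 ∧
    LR (cc3 k + th) ∧ ip C6 (cc3 k) (cc3 k + th) = 1 ∧ ip C6 (-sr 1 + th) (cc3 k + th) = 0 := by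
  unfold LR
  decide +kernel

theorem KYB_mem (hSGR : SGR_stmt) (K : Type) [Field K] (τ : K ≃+* K) (hτ : ∀ x, τ (τ x) = x) (β : Fin 6 → ℤ) (hβ : LR β) (t : K)
    (ht : τ t = t) : XG C6 β t ∈ GS τ := by
  obtain ⟨g, hg, hX⟩ := (hSGR K τ hτ).2.1 β t hβ ht
  have h1 := (g_XG K β hβ.1 t).1
  have h2 : XG C6 β t = g := LinearEquiv.ext fun v => (h1 v).trans (hX v).symm
  rw [h2]
  exact hg

theorem KYB (hKVA : KVA_stmt) (hSGR : SGR_stmt) : KYB_stmt := by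
  intro K _ τ hτ κ hκ hκ0 k
  obtain ⟨⟨c1, c2, c3⟩, hd⟩ := KYB_c
  obtain ⟨d1, d2, d3, d4, d5⟩ := hd k
  obtain ⟨⟨ε, hε, h1⟩, -⟩ := hKVA K κ hκ0 (-sr 1) c1 c2
  obtain ⟨⟨ε', hε', h2⟩, -⟩ := hKVA K κ hκ0 (cc3 k) d1 d2
  have he : (ε : K) * (ε : K) = 1 := by
    rcases hε with h | h <;> rw [h] <;> norm_num
  have he' : (ε' : K) * (ε' : K) = 1 := by
    rcases hε' with h | h <;> rw [h] <;> norm_num
  have hneg : (XG C6 (-sr 1) (-1 : K)) = (XG C6 (-sr 1) (1 : K))⁻¹ := (g_XG K (-sr 1) c1.1 1).2.2.symm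
  have hz : ∀ β, ip C6 β β = 2 → XG C6 β (0 : K) = 1 := fun β hβ => (k_GXC 6 C6 K hb6 β β hβ hβ 0 0).2.1
  set q : K := -((ε : K) * κ⁻¹) with hq
  have h3 := h1 (-1) q
  have e1 : -1 - (ε : K) * κ * q = 0 := by
    rw [hq]
    have : (ε : K) * κ * -((ε : K) * κ⁻¹) = -(((ε : K) * (ε : K)) * (κ * κ⁻¹)) := by ring
    rw [this, he, mul_inv_cancel₀ hκ0]
    ring
  rw [e1, hz _ c1.1, mul_zero, add_zero, one_mul, hneg] at h3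
  have h4 := h2 (ε' : K) 0
  rw [mul_zero, sub_zero, zero_add, he', hz _ d3.1, mul_one] at h4
  have h5 : XG C6 (cc3 k) (ε' : K) * XG C6 (cc3 k + th) 1 = XG C6 (cc3 k + th) 1 * XG C6 (cc3 k) (ε' : K) :=
    (k_GXC 6 C6 K hb6 (cc3 k) (cc3 k + th) d1.1 d3.1 (ε' : K) 1).2.2.1 (by rw [d4]; norm_num)
  rw [h5] at h4
  have h6 : XG C6 (-sr 1 + th) q * XG C6 (cc3 k + th) 1 = XG C6 (cc3 k + th) 1 * XG C6 (-sr 1 + th) q :=
    (k_GXC 6 C6 K hb6 (-sr 1 + th) (cc3 k + th) c3.1 d3.1 q 1).2.2.1 (by rw [d5])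
  refine ⟨(XG C6 (-sr 1) (1 : K))⁻¹ * XG C6 (-sr 1 + th) q * XG C6 (cc3 k) (ε' : K), ?_, ?_⟩
  · refine mul_mem (mul_mem (inv_mem ?_) ?_) ?_
    · exact KYB_mem hSGR K τ hτ _ c1 _ (map_one τ)
    · refine KYB_mem hSGR K τ hτ _ c3 _ ?_
      rw [hq, map_neg, map_mul, map_intCast, map_inv₀, hκ]
    · exact KYB_mem hSGR K τ hτ _ d1 _ (map_intCast τ ε')
  · rw [add_comm th (cc3 k)]
    exact KYB_grp _ _ _ _ _ h3 h4 h6

end Pool.Agent.EXT
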